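import Pool.Agent.W425.BF.Stm

set_option autoImplicit false

/-! Project BF, part CELL: cells outside the regions. -/

namespace Pool.Agent.W906.BF

open Pool.Agent.W426.SM (gord face IsRay)
open Pool.Agent.W803.SM (filt gord_le exists_gord filt_nonempty mem_filt)
open Pool.Agent.W425.BF

/-- the index set of the linear forms -/
abbrev Phi (k : ℕ) : Type := (Fin k × Ix k) ⊕ (Fin k × Fin k)

/-- the linear forms -/
noncomputable def ff {n k : ℕ} (m : Fin k → Fin n → ℕ) (i : Fin n) : Phi k → Fin n → ℤ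
  | Sum.inl (j0, q) => cf m i j0 q
  | Sum.inr (j, l) => fun x => (m l x : ℤ) - m j x

/-- the constants -/
noncomputable def dd {n k : ℕ} (m : Fin k → Fin n → ℕ) (i : Fin n) : Phi k → ℤ
  | Sum.inl (j0, q) => cd m i j0 q
  | Sum.inr _ => 0

/-- the sign vector of a point -/
noncomputable def sg {n k : ℕ} (m : Fin k → Fin n → ℕ) (i : Fin n) (u : Fin n → ℕ)
    (φ : Phi k) : Bool :=
  decide (dd m i φ ≤ ∑ x, ff m i φ x * (u x : ℤ))

/-- the linear forms of a cell -/
noncomputable def hh {n k : ℕ} (m : Fin k → Fin n → ℕ) (i : Fin n) (σ : Phi k → Bool)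
    (φ : Phi k) : Fin n → ℤ :=
  if σ φ = true then ff m i φ else -ff m i φ

/-- the constants of a cell -/
noncomputable def dc {n k : ℕ} (m : Fin k → Fin n → ℕ) (i : Fin n) (σ : Phi k → Bool)
    (φ : Phi k) : ℤ :=
  if σ φ = true then dd m i φ else 1 - dd m i φ

variable {n k : ℕ}

theorem mem_cell {m : Fin k → Fin n → ℕ} {i : Fin n} {σ : Phi k → Bool} {u : Fin n → ℕ} :
    u ∈ Pol (hh m i σ) (dc m i σ) ↔ sg m i u = σ := by
  have key : ∀ φ, (dc m i σ φ ≤ ∑ x, hh m i σ φ x * (u x : ℤ)) ↔ sg m i u φ = σ φ := by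
    intro φ
    unfold dc hh sg
    cases hσ : σ φ with
    | true => simp
    | false =>
      have h1 : ∑ x, (-ff m i φ) x * (u x : ℤ) = -∑ x, ff m i φ x * (u x : ℤ) := by
        rw [← Finset.sum_neg_distrib]
        refine Finset.sum_congr rfl fun x _ => ?_
        rw [Pi.neg_apply]
        ring
      simp only [Bool.false_eq_true, if_false, h1, decide_eq_false_iff_not]
      omega
  constructor
  · intro h
    funext φ
    exact (key φ).1 (h φ)
  · intro h φ
    exact (key φ).2 (congrFun h φ)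

theorem mem_PA_iff {m : Fin k → Fin n → ℕ} {i : Fin n} {j0 : Fin k} {u : Fin n → ℕ} :
    u ∈ PA m i j0 ↔ ∀ q, sg m i u (Sum.inl (j0, q)) = true := by
  unfold sg
  simp only [decide_eq_true_eq]
  rfl

theorem mem_filt_iff (hk : 0 < k) {m : Fin k → Fin n → ℕ} {i : Fin n} {j : Fin k}
    {u : Fin n → ℕ} : j ∈ filt m u ↔ ∀ l, sg m i u (Sum.inr (j, l)) = true := by
  have hsum : ∀ l : Fin k, ∑ x, ff m i (Sum.inr (j, l)) x * (u x : ℤ) =
      ((∑ x, u x * m l x : ℕ) : ℤ) - ((∑ x, u x * m j x : ℕ) : ℤ) := by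
    intro l
    push_cast
    rw [← Finset.sum_sub_distrib]
    refine Finset.sum_congr rfl fun x _ => ?_
    show ((m l x : ℤ) - m j x) * (u x : ℤ) = _
    ring
  have hd : ∀ l : Fin k, dd m i (Sum.inr (j, l)) = 0 := fun l => rfl
  unfold sg
  simp only [decide_eq_true_eq, hsum, hd]
  rw [mem_filt]
  constructor
  · intro h l
    have h1 := gord_le m u l
    omega
  · intro h
    obtain ⟨l, hl⟩ := exists_gord hk m u
    have h1 := h l
    have h2 := gord_le m u j
    omega

theorem main : TaskPOS → TaskCELL := by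
  classical
  intro hPOS n k m i hk
  set I : Type := {σ : Phi k → Bool // ∃ u, sg m i u = σ ∧ ∀ j0, m j0 i = 1 → u ∉ PA m i j0}
    with hI
  set e : I ≃ Fin (Fintype.card I) := Fintype.equivFin I with he
  have hPA : ∀ (s : I) (u : Fin n → ℕ), sg m i u = s.1 → ∀ j0, m j0 i = 1 → u ∉ PA m i j0 := by
    intro s u hu j0 hj0 hmem
    obtain ⟨u₀, h1, h2⟩ := s.2
    apply h2 j0 hj0
    rw [mem_PA_iff] at hmem ⊢
    rw [h1, ← hu]
    exact hmem
  refine ⟨Fintype.card I, Phi k, inferInstance, fun s => hh m i (e.symm s).1,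
    fun s => dc m i (e.symm s).1, fun s => filt m (e.symm s).2.choose, ?_, ?_, ?_, ?_, ?_, ?_⟩
  · intro s u hu
    rw [mem_cell] at hu
    have h1 := (e.symm s).2.choose_spec.1
    ext j
    rw [mem_filt_iff hk (i := i), mem_filt_iff hk (i := i), hu, h1]
  · intro s
    exact filt_nonempty hk m _
  · intro u
    by_cases h : ∃ j0, m j0 i = 1 ∧ u ∈ PA m i j0
    · exact Or.inl h
    · right
      refine ⟨e ⟨sg m i u, u, rfl, fun j0 hj0 hm => h ⟨j0, hj0, hm⟩⟩, ?_⟩
      show u ∈ Pol (hh m i (e.symm _).1) (dc m i (e.symm _).1)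
      rw [Equiv.symm_apply_apply]
      exact mem_cell.2 rfl
  · intro s u hu
    exact hPA (e.symm s) u (mem_cell.1 hu)
  · intro s s' hne
    rw [Set.disjoint_left]
    intro u hu hu'
    apply hne
    apply e.symm.injective
    apply Subtype.ext
    rw [← mem_cell.1 hu, ← mem_cell.1 hu']
  · intro s ρ hρ a ha hpar
    obtain ⟨j0, hj0, _, hq⟩ := hPOS m i a ha.1
    obtain ⟨u₀, h1, h2⟩ := (e.symm s).2
    have h3 := h2 j0 hj0
    rw [mem_PA_iff] at h3
    push Not at h3
    obtain ⟨q, hq3⟩ := h3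
    have h4 : (e.symm s).1 (Sum.inl (j0, q)) ≠ true := by rw [← h1]; exact hq3
    have h5 := hρ.2.1 (Sum.inl (j0, q))
    have h6 : hh m i (e.symm s).1 (Sum.inl (j0, q)) = -cf m i j0 q := by
      unfold hh
      rw [if_neg h4]
      rfl
    have h5 : 0 ≤ ∑ x, hh m i (e.symm s).1 (Sum.inl (j0, q)) x * (ρ x : ℤ) := h5
    rw [h6] at h5
    have h7 : ∑ x, (-cf m i j0 q) x * (ρ x : ℤ) = -∑ x, cf m i j0 q x * (ρ x : ℤ) := by
      rw [← Finset.sum_neg_distrib]
      refine Finset.sum_congr rfl fun x _ => ?_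
      rw [Pi.neg_apply]
      ring
    rw [h7] at h5
    rcases hq q with ⟨hc1, hc2⟩ | hpos
    · apply hq3
      unfold sg
      rw [decide_eq_true_eq]
      show cd m i j0 q ≤ ∑ x, cf m i j0 q x * (u₀ x : ℤ)
      rw [hc1, hc2]
      simp
    · obtain ⟨M, N, hM, hN, hMN⟩ := hpar
      have h8 : (M : ℤ) * ∑ x, cf m i j0 q x * (a x : ℤ) =
          (N : ℤ) * ∑ x, cf m i j0 q x * (ρ x : ℤ) := by
        rw [Finset.mul_sum, Finset.mul_sum]
        refine Finset.sum_congr rfl fun x _ => ?_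
        have h9 : (M : ℤ) * (a x : ℤ) = (N : ℤ) * (ρ x : ℤ) := by exact_mod_cast hMN x
        linear_combination cf m i j0 q x * h9
      have hMz : (0 : ℤ) < M := by exact_mod_cast hM
      have hNz : (0 : ℤ) < N := by exact_mod_cast hN
      have h10 : 0 < (M : ℤ) * ∑ x, cf m i j0 q x * (a x : ℤ) := mul_pos hMz hpos
      have h11 : (N : ℤ) * ∑ x, cf m i j0 q x * (ρ x : ℤ) ≤ 0 :=
        mul_nonpos_of_nonneg_of_nonpos hNz.le (by linarith)
      linarith

end Pool.Agent.W906.BF
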